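import Pool.Agent.H34.FQ.Targets

/-!
# MP_63b6b1_nt, board hfq, row AC3: the sum of the correlations
-/

set_option autoImplicit false

open Finset Pool.Agent.H32.RQ Pool.Agent.H34.FQ

namespace Pool.Agent.H52.HFQ.AC3

/-- the gcd of `M` and the coordinates of `z` -/
def hg {s M : ℕ} (z : Fin s → ZMod M) : ℕ := Nat.gcd M (Finset.univ.gcd fun i => (z i).val)

theorem hg_dvd {s M : ℕ} (z : Fin s → ZMod M) : hg z ∣ M := Nat.gcd_dvd_left _ _

theorem hg_dvd_val {s M : ℕ} (z : Fin s → ZMod M) (i : Fin s) : hg z ∣ (z i).val :=
  (Nat.gcd_dvd_right _ _).trans (Finset.gcd_dvd (Finset.mem_univ i))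

theorem ann_card {s M : ℕ} [NeZero M] (z : Fin s → ZMod M) :
    (Finset.univ.filter fun β : ZMod M => ∀ i, β * z i = 0).card ≤ hg z := by
  have hM : 0 < M := Nat.pos_of_ne_zero (NeZero.ne M)
  have hpos : 0 < hg z := Nat.pos_of_dvd_of_pos (hg_dvd z) hM
  obtain ⟨k, hk⟩ := hg_dvd z
  have hk0 : 0 < k := by
    rcases Nat.eq_zero_or_pos k with h | h
    · rw [h, mul_zero] at hk
      omega
    · exact h
  have key : ∀ β : ZMod M, (∀ i, β * z i = 0) → k ∣ β.val := by
    intro β hβ
    have h1 : M ∣ β.val * hg z := by
      have h2 : M ∣ Finset.univ.gcd fun i => β.val * (z i).val := by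
        refine Finset.dvd_gcd fun i _ => ?_
        rw [← ZMod.natCast_eq_zero_iff]
        push_cast
        rw [ZMod.natCast_zmod_val, ZMod.natCast_zmod_val]
        exact hβ i
      rw [Finset.gcd_mul_left, normalize_eq] at h2
      unfold hg
      rw [← Nat.gcd_mul_left]
      exact Nat.dvd_gcd (Dvd.intro_left _ rfl) h2
    have h2 : hg z * k ∣ hg z * β.val := by rw [← hk, mul_comm (hg z)]; exact h1
    exact Nat.dvd_of_mul_dvd_mul_left hpos h2
  calc (Finset.univ.filter fun β : ZMod M => ∀ i, β * z i = 0).card
      ≤ (Finset.range (hg z)).card := by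
        refine Finset.card_le_card_of_injOn (fun β => β.val / k) (fun β hβ => ?_)
          fun β hβ β' hβ' h => ?_
        · have h3 := β.val_lt
          simp only [Finset.coe_range, Set.mem_Iio]
          rw [Nat.div_lt_iff_lt_mul hk0]
          omega
        · have h3 := key β (by simpa using hβ)
          have h4 := key β' (by simpa using hβ')
          have h5 : β.val / k = β'.val / k := h
          have h6 : β.val = β'.val := by
            rw [← Nat.div_mul_cancel h3, ← Nat.div_mul_cancel h4, h5]
          exact ZMod.val_injective M h6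
    _ = hg z := Finset.card_range _

/-- the residues modulo `M` which are `0` modulo `h` -/
theorem fib_card {M h : ℕ} [NeZero M] (hh : h ∣ M) :
    (Finset.univ.filter fun t : ZMod M => h ∣ t.val).card ≤ M / h := by
  have hM : 0 < M := Nat.pos_of_ne_zero (NeZero.ne M)
  have hpos : 0 < h := Nat.pos_of_dvd_of_pos hh hM
  calc (Finset.univ.filter fun t : ZMod M => h ∣ t.val).card
      ≤ (Finset.range (M / h)).card := by
        refine Finset.card_le_card_of_injOn (fun t => t.val / h) (fun t ht => ?_)
          fun t ht t' ht' he => ?_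
        · simp only [Finset.coe_range, Set.mem_Iio]
          exact Nat.div_lt_div_of_lt_of_dvd hh t.val_lt
        · have h1 : h ∣ t.val := by simpa using ht
          have h2 : h ∣ t'.val := by simpa using ht'
          have h4 : t.val / h = t'.val / h := he
          have h5 : t.val = t'.val := by
            rw [← Nat.div_mul_cancel h1, ← Nat.div_mul_cancel h2, h4]
          exact ZMod.val_injective M h5
    _ = M / h := Finset.card_range _

theorem cls_card {s M h : ℕ} [NeZero M] (hh : h ∣ M) (u : Fin s → ZMod M) :
    (Finset.univ.filter fun y : Fin s → ZMod M => ∀ i, h ∣ (u i - y i).val).card ≤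
      (M / h) ^ s := by
  calc (Finset.univ.filter fun y : Fin s → ZMod M => ∀ i, h ∣ (u i - y i).val).card
      ≤ (Fintype.piFinset fun _ : Fin s => Finset.univ.filter fun t : ZMod M => h ∣ t.val).card := by
        refine Finset.card_le_card_of_injOn (fun y => fun i => u i - y i) (fun y hy => ?_)
          fun y _ y' _ h => ?_
        · have hy' : ∀ i, h ∣ (u i - y i).val := by simpa using hy
          rw [Finset.mem_coe, Fintype.mem_piFinset]
          intro i
          rw [Finset.mem_filter]
          exact ⟨Finset.mem_univ _, hy' i⟩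
        · funext i
          have h1 := congrFun h i
          exact sub_right_injective h1
    _ ≤ (M / h) ^ s := by
        rw [Fintype.card_piFinset]
        calc ∏ _i : Fin s, (Finset.univ.filter fun t : ZMod M => h ∣ t.val).card
            ≤ ∏ _i : Fin s, M / h := Finset.prod_le_prod' fun i _ => fib_card hh
          _ = (M / h) ^ s := by simp

end Pool.Agent.H52.HFQ.AC3

namespace Pool.Agent.H52.HFQ

open Pool.Agent.H52.HFQ.AC3

theorem pf_AC3 : T_AC3 := by
  classical
  intro n M _ u
  have hM : 0 < M := Nat.pos_of_ne_zero (NeZero.ne M)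
  set zz : (Fin n → ZMod M) → Fin n → ZMod M := fun y i => u i - y i with hzz
  calc ∑ u' : Fin n → ZMod M,
      ((Finset.univ.filter fun a : ZMod M => ∀ i, a * (u i - u' i) = 0).card : ℝ)
      ≤ ∑ y : Fin n → ZMod M, ((hg (zz y) : ℕ) : ℝ) := by
        refine Finset.sum_le_sum fun y _ => ?_
        have h2 := ann_card (zz y)
        have h3 : (Finset.univ.filter fun a : ZMod M => ∀ i, a * (u i - y i) = 0) =
            (Finset.univ.filter fun β : ZMod M => ∀ i, β * zz y i = 0) := by
          refine Finset.filter_congr fun a _ => ?_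
          rw [hzz]
        rw [h3]
        convert (Nat.cast_le (α := ℝ)).2 h2
    _ = ∑ h ∈ M.divisors, ∑ y ∈ Finset.univ.filter (fun y : Fin n → ZMod M => hg (zz y) = h),
          ((hg (zz y) : ℕ) : ℝ) := by
        rw [Finset.sum_fiberwise_of_maps_to fun y _ => ?_]
        exact Nat.mem_divisors.2 ⟨hg_dvd _, hM.ne'⟩
    _ ≤ ∑ h ∈ M.divisors, (h : ℝ) * ((M : ℝ) / h) ^ n := by
        refine Finset.sum_le_sum fun h hh => ?_
        have hd : h ∣ M := (Nat.mem_divisors.1 hh).1
        calc ∑ y ∈ Finset.univ.filter (fun y : Fin n → ZMod M => hg (zz y) = h),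
              ((hg (zz y) : ℕ) : ℝ)
            = ∑ y ∈ Finset.univ.filter (fun y : Fin n → ZMod M => hg (zz y) = h), (h : ℝ) := by
              refine Finset.sum_congr rfl fun y hy => ?_
              rw [(Finset.mem_filter.1 hy).2]
          _ = (h : ℝ) *
              ((Finset.univ.filter (fun y : Fin n → ZMod M => hg (zz y) = h)).card : ℝ) := by
              rw [Finset.sum_const, nsmul_eq_mul, mul_comm]
          _ ≤ (h : ℝ) * ((M : ℝ) / h) ^ n := by
              refine mul_le_mul_of_nonneg_left ?_ (by positivity)
              have h2 : (Finset.univ.filter (fun y : Fin n → ZMod M => hg (zz y) = h)).card ≤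
                  (M / h) ^ n := by
                refine le_trans (Finset.card_le_card fun y hy => ?_) (cls_card hd u)
                have h3 := (Finset.mem_filter.1 hy).2
                rw [Finset.mem_filter]
                refine ⟨Finset.mem_univ _, fun i => ?_⟩
                have h4 := hg_dvd_val (zz y) i
                rw [h3] at h4
                exact h4
              calc ((Finset.univ.filter (fun y : Fin n → ZMod M => hg (zz y) = h)).card : ℝ)
                  ≤ (((M / h) ^ n : ℕ) : ℝ) := by exact_mod_cast h2
                _ = ((M : ℝ) / h) ^ n := by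
                    have h5 : h ≠ 0 := by
                      rintro rfl
                      exact hM.ne' (Nat.eq_zero_of_zero_dvd hd)
                    push_cast [Nat.cast_div hd (by exact_mod_cast h5 : (h : ℝ) ≠ 0)]
                    ring
    _ = (M : ℝ) ^ n * ∑ h ∈ M.divisors, (h : ℝ) / (h : ℝ) ^ n := by
        rw [Finset.mul_sum]
        refine Finset.sum_congr rfl fun h _ => ?_
        rw [div_pow]
        ring

end Pool.Agent.H52.HFQ
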