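import Pool.Agent.H34.FQ.Targets

/-!
# MP_63b6b1_nt, board hfq, row GDT: the minors after a unimodular change of coordinates
-/

set_option autoImplicit false

open Finset Pool.Agent.H32.RQ Pool.Agent.H34.FQ

namespace Pool.Agent.H52.HFQ.GDT

variable {s : ℕ}

theorem mv_mv (T Ti : Matrix (Fin s) (Fin s) ℤ) (h : Ti * T = 1) (x : Fin s → ℤ) :
    mv Ti (mv T x) = x := by
  have h1 : ∀ (A : Matrix (Fin s) (Fin s) ℤ) (y : Fin s → ℤ), mv A y = A.mulVec y := by
    intro A y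
    funext i
    simp [mv, Matrix.mulVec, dotProduct]
  rw [h1, h1, Matrix.mulVec_mulVec, h, Matrix.one_mulVec]

theorem mnr_mv (T : Matrix (Fin s) (Fin s) ℤ) (x y : Fin s → ℤ) (i j : Fin s) :
    mnr (mv T x) (mv T y) i j = ∑ k, ∑ l, T i k * T j l * mnr x y k l := by
  have h1 : ∀ (z w : Fin s → ℤ) (a b : Fin s), mv T z a * mv T w b =
      ∑ k, ∑ l, T a k * T b l * (z k * w l) := by
    intro z w a b
    unfold mv
    rw [Finset.sum_mul_sum]
    refine Finset.sum_congr rfl fun k _ => Finset.sum_congr rfl fun l _ => ?_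
    simp only [Int.cast_id]
    ring
  unfold mnr
  rw [h1 x y i j, mul_comm (mv T x j) (mv T y i), h1 y x i j, ← Finset.sum_sub_distrib]
  refine Finset.sum_congr rfl fun k _ => ?_
  rw [← Finset.sum_sub_distrib]
  refine Finset.sum_congr rfl fun l _ => ?_
  ring

theorem gm_dvd (T : Matrix (Fin s) (Fin s) ℤ) (x y : Fin s → ℤ) :
    gm x y ∣ gm (mv T x) (mv T y) := by
  refine Finset.dvd_gcd fun p _ => ?_
  have h1 : (gm x y : ℤ) ∣ mnr (mv T x) (mv T y) p.1 p.2 := by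
    rw [mnr_mv]
    refine Finset.dvd_sum fun k _ => Finset.dvd_sum fun l _ => Dvd.dvd.mul_left ?_ _
    have h2 : gm x y ∣ (mnr x y k l).natAbs :=
      Finset.gcd_dvd (f := fun p : Fin s × Fin s => (mnr x y p.1 p.2).natAbs)
        (Finset.mem_univ (k, l))
    exact Int.natCast_dvd.2 h2
  exact Int.natCast_dvd.1 h1

theorem dm_le (T : Matrix (Fin s) (Fin s) ℤ) (x y : Fin s → ℤ) :
    dm (mv T x) (mv T y) ≤ (∑ i, ∑ k, (T i k).natAbs) ^ 2 * dm x y := by
  refine Finset.sup_le fun p _ => ?_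
  rw [mnr_mv]
  have hT : ∀ i, ∑ k, (T i k).natAbs ≤ ∑ i, ∑ k, (T i k).natAbs := fun i =>
    Finset.single_le_sum (f := fun i => ∑ k, (T i k).natAbs) (fun _ _ => Nat.zero_le _)
      (Finset.mem_univ i)
  calc (∑ k, ∑ l, T p.1 k * T p.2 l * mnr x y k l).natAbs
      ≤ ∑ k, ∑ l, (T p.1 k * T p.2 l * mnr x y k l).natAbs :=
        (Int.natAbs_sum_le _ _).trans (Finset.sum_le_sum fun k _ => Int.natAbs_sum_le _ _)
    _ ≤ ∑ k, ∑ l, (T p.1 k).natAbs * (T p.2 l).natAbs * dm x y := by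
        refine Finset.sum_le_sum fun k _ => Finset.sum_le_sum fun l _ => ?_
        rw [Int.natAbs_mul, Int.natAbs_mul]
        refine Nat.mul_le_mul_left _ ?_
        exact Finset.le_sup (f := fun p : Fin s × Fin s => (mnr x y p.1 p.2).natAbs)
          (Finset.mem_univ (k, l))
    _ = (∑ k, (T p.1 k).natAbs) * (∑ l, (T p.2 l).natAbs) * dm x y := by
        rw [Finset.sum_mul_sum, Finset.sum_mul]
        refine Finset.sum_congr rfl fun k _ => ?_
        rw [Finset.sum_mul]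
    _ ≤ (∑ i, ∑ k, (T i k).natAbs) ^ 2 * dm x y := by
        refine Nat.mul_le_mul_right _ ?_
        rw [sq]
        exact Nat.mul_le_mul (hT _) (hT _)

end Pool.Agent.H52.HFQ.GDT

namespace Pool.Agent.H52.HFQ

open Pool.Agent.H52.HFQ.GDT

theorem pf_GDT : T_GDT := by
  intro s T Ti h1 h2
  refine ⟨(∑ i, ∑ k, (T i k).natAbs) ^ 2 + (∑ i, ∑ k, (Ti i k).natAbs) ^ 2 + 1, by omega,
    fun x y => ⟨?_, ?_, ?_⟩⟩
  · refine Nat.dvd_antisymm ?_ (gm_dvd T x y)
    have h3 := gm_dvd Ti (mv T x) (mv T y)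
    rw [mv_mv T Ti h2, mv_mv T Ti h2] at h3
    exact h3
  · refine (dm_le T x y).trans (Nat.mul_le_mul_right _ ?_)
    omega
  · have h3 := dm_le Ti (mv T x) (mv T y)
    rw [mv_mv T Ti h2, mv_mv T Ti h2] at h3
    refine h3.trans (Nat.mul_le_mul_right _ ?_)
    omega

end Pool.Agent.H52.HFQ
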