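import Pool.Agent.H34.FQ.Targets

/-!
# MP_63b6b1_nt, board hfq, row PO2: the number of the forms close to the special form
-/

set_option autoImplicit false

open Finset Pool.Agent.H32.RQ Pool.Agent.H34.FQ

namespace Pool.Agent.H52.HFQ

open Classical in
/-- the admissible values of one coefficient -/
noncomputable def Sc (V A : ℕ) (B : ℝ) (x : ℝ) (e : ℤ) : Finset ℤ :=
  (Finset.Icc (-(A : ℤ)) A).filter fun u => (V : ℤ) ∣ u - e ∧ |(u : ℝ) - x| ≤ B

theorem Sc_card (V A : ℕ) (B x : ℝ) (e : ℤ) (hV : 1 ≤ V) (hB : 2 * (V : ℝ) ≤ B)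
    (hx : |x| + B ≤ A) :
    B / (2 * V) ≤ ((Sc V A B x e).card : ℝ) := by
  classical
  have hV0 : (0 : ℝ) < V := by exact_mod_cast hV
  have hVZ : (0 : ℤ) < V := by exact_mod_cast hV
  have hB0 : 0 < B := by linarith
  have hx2 := abs_le.1 (le_refl |x|)
  set n : ℕ := ⌊B / V⌋₊ with hn
  have hn1 : (n : ℝ) ≤ B / V := Nat.floor_le (by positivity)
  have hn2 : B / V < n + 1 := Nat.lt_floor_add_one _
  have hnV : (V : ℝ) * n ≤ B := by
    rw [le_div_iff₀ hV0] at hn1
    linarith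
  set z : ℤ := ⌊(x - e) / V⌋ with hz
  have hz1 : (V : ℝ) * z ≤ x - e := by
    have h := Int.floor_le ((x - e) / V)
    rw [le_div_iff₀ hV0] at h
    rw [hz]
    linarith
  have hz2 : x - e < V * z + V := by
    have h := Int.lt_floor_add_one ((x - e) / V)
    rw [div_lt_iff₀ hV0] at h
    rw [hz]
    linarith
  have hsub : (Finset.range n).image (fun k : ℕ => e + (V : ℤ) * (z - k)) ⊆ Sc V A B x e := by
    intro u hu
    obtain ⟨k, hk, rfl⟩ := Finset.mem_image.1 hu
    have hk' : k + 1 ≤ n := Finset.mem_range.1 hk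
    have hkR : ((k : ℝ) + 1) ≤ n := by exact_mod_cast hk'
    have hVk : (V : ℝ) * (k + 1) ≤ B := (mul_le_mul_of_nonneg_left hkR hV0.le).trans hnV
    have hk0 : (0 : ℝ) ≤ V * k := by positivity
    have hup : ((e + (V : ℤ) * (z - k) : ℤ) : ℝ) ≤ x := by
      push_cast
      linarith
    have hlo : x - B ≤ ((e + (V : ℤ) * (z - k) : ℤ) : ℝ) := by
      push_cast
      linarith
    unfold Sc
    rw [Finset.mem_filter, Finset.mem_Icc]
    refine ⟨⟨?_, ?_⟩, ?_, ?_⟩
    · have h1 : (((-(A : ℤ) : ℤ)) : ℝ) ≤ ((e + (V : ℤ) * (z - k) : ℤ) : ℝ) := by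
        push_cast at hlo ⊢
        linarith [hx2.1]
      exact_mod_cast h1
    · have h1 : ((e + (V : ℤ) * (z - k) : ℤ) : ℝ) ≤ (((A : ℤ) : ℤ) : ℝ) := by
        push_cast at hup ⊢
        linarith [hx2.2]
      exact_mod_cast h1
    · rw [add_sub_cancel_left]
      exact dvd_mul_right _ _
    · rw [abs_le]
      constructor <;> linarith
  have hinj : Function.Injective (fun k : ℕ => e + (V : ℤ) * (z - k)) := by
    intro k k' h
    have h1 : (V : ℤ) * (z - k) = V * (z - k') := add_left_cancel h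
    have h2 := mul_left_cancel₀ hVZ.ne' h1
    have h3 : (k : ℤ) = k' := by linarith
    exact_mod_cast h3
  have hcard := Finset.card_le_card hsub
  rw [Finset.card_image_of_injective _ hinj, Finset.card_range] at hcard
  have h4 : (n : ℝ) ≤ ((Sc V A B x e).card : ℝ) := by exact_mod_cast hcard
  refine le_trans ?_ h4
  have h5 : 2 ≤ B / V := by
    rw [le_div_iff₀ hV0]
    exact hB
  have h6 : B / (2 * V) = (B / V) / 2 := by
    field_simp
  rw [h6]
  linarith

theorem pf_PO2 : T_PO2 := by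
  classical
  intro s V C r f₀ hV hC hf hr hr1
  refine ⟨⌈2 * (V : ℝ) / r⌉₊, fun A hA => ?_⟩
  have hA' : 2 * (V : ℝ) / r ≤ A := (Nat.le_ceil _).trans (by exact_mod_cast hA)
  have hV0 : (0 : ℝ) < V := by exact_mod_cast hV
  have hC0 : (0 : ℝ) < C := by exact_mod_cast hC
  have hA0 : (0 : ℝ) ≤ A := Nat.cast_nonneg A
  have hB : 2 * (V : ℝ) ≤ r * A := by
    rw [div_le_iff₀ hr] at hA'
    linarith
  have hsub : (Fintype.piFinset fun p : Mon s =>
      Sc V A (r * A) (A / C * f₀ p) (f₀ p)) ⊆ sp1 f₀ V C A r := by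
    intro c hc
    rw [Fintype.mem_piFinset] at hc
    unfold sp1 b1
    rw [Finset.mem_filter, Fintype.mem_piFinset]
    exact ⟨fun p => (Finset.mem_filter.1 (hc p)).1, fun p => (Finset.mem_filter.1 (hc p)).2⟩
  have hcard := Finset.card_le_card hsub
  rw [Fintype.card_piFinset] at hcard
  have h1 : (∏ p : Mon s, ((Sc V A (r * A) (A / C * f₀ p) (f₀ p)).card : ℝ)) ≤
      ((sp1 f₀ V C A r).card : ℝ) := by exact_mod_cast hcard
  refine le_trans ?_ h1
  have h3 : (r * A / (2 * V)) ^ md s = ∏ _p : Mon s, r * A / (2 * V) := by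
    rw [Finset.prod_const, Finset.card_univ]
  rw [h3]
  refine Finset.prod_le_prod (fun p _ => by positivity) fun p _ => Sc_card V A _ _ _ hV hB ?_
  have h4 : 2 * |(f₀ p : ℝ)| ≤ C := by exact_mod_cast hf p
  have h5 : |A / C * (f₀ p : ℝ)| ≤ A / 2 := by
    rw [abs_mul, abs_of_nonneg (div_nonneg hA0 hC0.le), div_mul_eq_mul_div, div_le_iff₀ hC0]
    nlinarith
  have h6 : r * A ≤ A / 2 := by
    nlinarith
  linarith

end Pool.Agent.H52.HFQ
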