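import Pool.Agent.H34.FQ.Targets

/-!
# MP_63b6b1_nt, board hfq, row PO3: the forms close to the special form which are bad modulo `M`
-/

set_option autoImplicit false

open Finset Pool.Agent.H32.RQ Pool.Agent.H34.FQ

namespace Pool.Agent.H52.HFQ.PO3

/-- integers in one class modulo `W` in an interval -/
theorem card_class_le (W : ℕ) (a b : ℝ) (T : Finset ℤ) (hW : 1 ≤ W) (hab : a ≤ b)
    (h1 : ∀ u ∈ T, a ≤ (u : ℝ) ∧ (u : ℝ) ≤ b) (h2 : ∀ u ∈ T, ∀ v ∈ T, (W : ℤ) ∣ u - v) :
    (T.card : ℝ) ≤ (b - a) / W + 1 := by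
  have hW0 : (0 : ℝ) < W := by exact_mod_cast hW
  rcases T.eq_empty_or_nonempty with h | h
  · rw [h, Finset.card_empty, Nat.cast_zero]
    have : 0 ≤ (b - a) / W := div_nonneg (by linarith) hW0.le
    linarith
  · set m := T.min' h with hm
    have hmT : m ∈ T := Finset.min'_mem T h
    have hcard : T.card ≤ (Finset.range (⌊(b - a) / W⌋₊ + 1)).card := by
      refine Finset.card_le_card_of_injOn (fun u => ((u - m) / W).toNat) ?_ ?_
      · intro u hu
        have hu' : u ∈ T := hu
        obtain ⟨k, hk⟩ := h2 u hu' m hmT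
        have hmu : m ≤ u := Finset.min'_le T u hu'
        have hWZ : (W : ℤ) ≠ 0 := by exact_mod_cast (by omega : W ≠ 0)
        have hk0 : 0 ≤ k := by
          by_contra hcon
          have h3 : (W : ℤ) * k < 0 := mul_neg_of_pos_of_neg (by exact_mod_cast hW) (not_le.1 hcon)
          omega
        have h4 : (u - m) / W = k := by
          rw [hk, Int.mul_ediv_cancel_left _ hWZ]
        rw [Finset.mem_coe, Finset.mem_range]
        dsimp only
        rw [h4, Nat.lt_succ_iff]
        refine Nat.le_floor ?_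
        rw [le_div_iff₀ hW0]
        have h5 : ((k.toNat : ℕ) : ℝ) = (k : ℝ) := by
          have : ((k.toNat : ℕ) : ℤ) = k := Int.toNat_of_nonneg hk0
          exact_mod_cast this
        rw [h5]
        have h6 : (W : ℝ) * k = (u : ℝ) - m := by exact_mod_cast hk.symm
        have h7 := (h1 u hu').2
        have h8 := (h1 m hmT).1
        linarith
      · intro u hu v hv huv
        have hu' : u ∈ T := hu
        have hv' : v ∈ T := hv
        have hWZ : (W : ℤ) ≠ 0 := by exact_mod_cast (by omega : W ≠ 0)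
        have hWp : (0 : ℤ) < W := by exact_mod_cast hW
        obtain ⟨k, hk⟩ := h2 u hu' m hmT
        obtain ⟨l, hl⟩ := h2 v hv' m hmT
        have hmu : m ≤ u := Finset.min'_le T u hu'
        have hmv : m ≤ v := Finset.min'_le T v hv'
        have hk0 : 0 ≤ k := by
          by_contra hcon
          have h3 : (W : ℤ) * k < 0 := mul_neg_of_pos_of_neg hWp (not_le.1 hcon)
          omega
        have hl0 : 0 ≤ l := by
          by_contra hcon
          have h3 : (W : ℤ) * l < 0 := mul_neg_of_pos_of_neg hWp (not_le.1 hcon)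
          omega
        dsimp only at huv
        rw [hk, hl, Int.mul_ediv_cancel_left _ hWZ, Int.mul_ediv_cancel_left _ hWZ] at huv
        have h5 : k = l := by
          have h6 : ((k.toNat : ℕ) : ℤ) = ((l.toNat : ℕ) : ℤ) := congrArg _ huv
          rwa [Int.toNat_of_nonneg hk0, Int.toNat_of_nonneg hl0] at h6
        rw [h5, ← hl] at hk
        linarith
    rw [Finset.card_range] at hcard
    have h3 : (T.card : ℝ) ≤ (⌊(b - a) / W⌋₊ : ℝ) + 1 := by exact_mod_cast hcard
    have h4 : (⌊(b - a) / W⌋₊ : ℝ) ≤ (b - a) / W :=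
      Nat.floor_le (div_nonneg (by linarith) hW0.le)
    linarith

open Classical in
/-- the admissible values of one coefficient in a class modulo `M` -/
noncomputable def Sq (V M A : ℕ) (B x : ℝ) (e : ℤ) (f : ZMod M) : Finset ℤ :=
  (Finset.Icc (-(A : ℤ)) A).filter fun u => ((V : ℤ) ∣ u - e ∧ |(u : ℝ) - x| ≤ B) ∧
    (u : ZMod M) = f

theorem Sq_card (V M A : ℕ) (B x : ℝ) (e : ℤ) (f : ZMod M) (hV : 1 ≤ V) (hM : 1 ≤ M)
    (hco : Nat.Coprime V M) (hB : (V : ℝ) * M ≤ B) :
    ((Sq V M A B x e f).card : ℝ) ≤ 4 * B / (V * M) := by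
  classical
  have hV0 : (0 : ℝ) < V := by exact_mod_cast hV
  have hM0 : (0 : ℝ) < M := by exact_mod_cast hM
  have hVM : (0 : ℝ) < (V : ℝ) * M := by positivity
  have h1 := card_class_le (V * M) (x - B) (x + B) (Sq V M A B x e f)
    (Nat.mul_pos hV hM) (by linarith) (fun u hu => by
      have h2 := (abs_le.1 (Finset.mem_filter.1 hu).2.1.2)
      constructor <;> linarith) (fun u hu v hv => by
      have h2 := (Finset.mem_filter.1 hu).2
      have h3 := (Finset.mem_filter.1 hv).2
      have h4 : (V : ℤ) ∣ u - v := by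
        have := dvd_sub h2.1.1 h3.1.1
        rwa [sub_sub_sub_cancel_right] at this
      have h5 : (M : ℤ) ∣ u - v := by
        rw [← ZMod.intCast_zmod_eq_zero_iff_dvd, Int.cast_sub, h2.2, h3.2, sub_self]
      have h6 : IsCoprime (V : ℤ) (M : ℤ) := Nat.isCoprime_iff_coprime.2 hco
      have h7 := h6.mul_dvd h4 h5
      push_cast
      exact h7)
  refine h1.trans ?_
  have h2 : (x + B - (x - B)) / ((V * M : ℕ) : ℝ) = 2 * (B / (V * M)) := by
    push_cast
    ring
  have h3 : 1 ≤ B / (V * M) := by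
    rw [le_div_iff₀ hVM, one_mul]
    exact hB
  have h4 : 4 * B / (V * M) = 4 * (B / (V * M)) := by ring
  rw [h2, h4]
  linarith

end Pool.Agent.H52.HFQ.PO3

namespace Pool.Agent.H52.HFQ

open Pool.Agent.H52.HFQ.PO3

theorem pf_PO3 : T_PO3 := by
  classical
  intro s V C M _ r f₀ hV hC hr hco
  refine ⟨⌈(V : ℝ) * M / r⌉₊, fun A hA E => ?_⟩
  have hA' : (V : ℝ) * M / r ≤ A := (Nat.le_ceil _).trans (by exact_mod_cast hA)
  have hM : 1 ≤ M := Nat.one_le_iff_ne_zero.2 (NeZero.ne M)
  have hV0 : (0 : ℝ) < V := by exact_mod_cast hV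
  have hM0 : (0 : ℝ) < M := by exact_mod_cast hM
  have hA0 : (0 : ℝ) ≤ A := Nat.cast_nonneg A
  have hB : (V : ℝ) * M ≤ r * A := by
    rw [div_le_iff₀ hr] at hA'
    linarith
  have hfib : ∀ G : Mon s → ZMod M,
      (((sp1 f₀ V C A r).filter fun f => cf (ZMod M) f = G).card : ℝ) ≤
        (4 * (r * A) / (V * M)) ^ md s := by
    intro G
    have hsub : ((sp1 f₀ V C A r).filter fun f => cf (ZMod M) f = G) ⊆
        Fintype.piFinset fun p : Mon s => Sq V M A (r * A) (A / C * f₀ p) (f₀ p) (G p) := by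
      intro c hc
      obtain ⟨h1, h2⟩ := Finset.mem_filter.1 hc
      unfold sp1 at h1
      obtain ⟨h3, h4⟩ := Finset.mem_filter.1 h1
      unfold b1 at h3
      rw [Fintype.mem_piFinset]
      intro p
      exact Finset.mem_filter.2 ⟨Fintype.mem_piFinset.1 h3 p, h4 p, congrFun h2 p⟩
    have hcard := Finset.card_le_card hsub
    rw [Fintype.card_piFinset] at hcard
    have h1 : (((sp1 f₀ V C A r).filter fun f => cf (ZMod M) f = G).card : ℝ) ≤
        ∏ p : Mon s, ((Sq V M A (r * A) (A / C * f₀ p) (f₀ p) (G p)).card : ℝ) := by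
      exact_mod_cast hcard
    refine h1.trans ?_
    have h3 : (4 * (r * A) / (V * M)) ^ md s = ∏ _p : Mon s, 4 * (r * A) / (V * M) := by
      rw [Finset.prod_const, Finset.card_univ]
    rw [h3]
    exact Finset.prod_le_prod (fun p _ => Nat.cast_nonneg _)
      fun p _ => Sq_card V M A _ _ _ _ hV hM hco hB
  have hsum : (((sp1 f₀ V C A r).filter fun f => cf (ZMod M) f ∈ E).card : ℝ) =
      ∑ G ∈ E, (((sp1 f₀ V C A r).filter fun f => cf (ZMod M) f = G).card : ℝ) := by
    have h1 := Finset.card_eq_sum_card_fiberwise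
      (s := (sp1 f₀ V C A r).filter fun f => cf (ZMod M) f ∈ E) (t := E)
      (f := fun f => cf (ZMod M) f) (fun c hc => (Finset.mem_filter.1 hc).2)
    rw [h1]
    push_cast
    refine Finset.sum_congr rfl fun G hG => ?_
    congr 2
    ext c
    rw [Finset.mem_filter, Finset.mem_filter, Finset.mem_filter]
    constructor
    · rintro ⟨⟨h2, -⟩, h3⟩
      exact ⟨h2, h3⟩
    · rintro ⟨h2, h3⟩
      exact ⟨⟨h2, h3 ▸ hG⟩, h3⟩
  rw [hsum]
  have h5 : ∑ G ∈ E, (((sp1 f₀ V C A r).filter fun f => cf (ZMod M) f = G).card : ℝ) ≤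
      E.card * (4 * (r * A) / (V * M)) ^ md s := by
    rw [← nsmul_eq_mul]
    exact Finset.sum_le_card_nsmul _ _ _ fun G _ => hfib G
  have h6 := mul_le_mul_of_nonneg_right h5 (by positivity : (0 : ℝ) ≤ (M : ℝ) ^ md s)
  refine h6.trans (le_of_eq ?_)
  have h7 : (4 * r * A / V) ^ md s = (4 * (r * A) / (V * M)) ^ md s * (M : ℝ) ^ md s := by
    rw [← mul_pow]
    congr 1
    field_simp
  rw [h7]
  ring

end Pool.Agent.H52.HFQ
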