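import Pool.Agent.H34.FQ.Targets

/-!
# MP_63b6b1_nt, board hfq, row RCN: real points in the chart
-/

set_option autoImplicit false

open Finset Pool.Agent.H32.RQ Pool.Agent.H34.FQ

namespace Pool.Agent.H52.HFQ.RCN

variable {s : ℕ}

theorem mv_mv (T Ti : Matrix (Fin s) (Fin s) ℤ) (h : Ti * T = 1) (x : Fin s → ℝ) :
    mv Ti (mv T x) = x := by
  have h1 : ∀ (A : Matrix (Fin s) (Fin s) ℤ) (y : Fin s → ℝ),
      mv A y = (A.map (Int.castRingHom ℝ)).mulVec y := by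
    intro A y
    funext i
    simp [mv, Matrix.mulVec, dotProduct]
  rw [h1, h1, Matrix.mulVec_mulVec, ← Matrix.map_mul, h, Matrix.map_one _ (map_zero _) (map_one _),
    Matrix.one_mulVec]

theorem mv_smul (T : Matrix (Fin s) (Fin s) ℤ) (a : ℝ) (x : Fin s → ℝ) :
    mv T (a • x) = a • mv T x := by
  funext i
  unfold mv
  rw [Pi.smul_apply, smul_eq_mul, Finset.mul_sum]
  refine Finset.sum_congr rfl fun j _ => ?_
  rw [Pi.smul_apply, smul_eq_mul]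
  ring

theorem qf_smul (f : Mon s → ℝ) (a : ℝ) (x : Fin s → ℝ) : qf f (a • x) = a ^ 2 * qf f x := by
  unfold qf
  rw [Finset.mul_sum]
  refine Finset.sum_congr rfl fun p _ => ?_
  simp only [Pi.smul_apply, smul_eq_mul]
  ring

theorem mv_abs_le (T : Matrix (Fin s) (Fin s) ℤ) (x : Fin s → ℝ) (hB : ∀ j, |x j| ≤ 1)
    (i : Fin s) : |mv T x i| ≤ ∑ i, ∑ k, |(T i k : ℝ)| := by
  have hT : ∑ k, |(T i k : ℝ)| ≤ ∑ i, ∑ k, |(T i k : ℝ)| :=
    Finset.single_le_sum (f := fun i => ∑ k, |(T i k : ℝ)|)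
      (fun _ _ => Finset.sum_nonneg fun _ _ => abs_nonneg _) (Finset.mem_univ i)
  refine le_trans ?_ hT
  calc |mv T x i| ≤ ∑ j, |(T i j : ℝ) * x j| := by
        unfold mv
        exact Finset.abs_sum_le_sum_abs _ _
    _ ≤ ∑ j, |(T i j : ℝ)| := by
        refine Finset.sum_le_sum fun j _ => ?_
        rw [abs_mul]
        exact mul_le_of_le_one_right (abs_nonneg _) (hB j)

theorem pt_eta {n : ℕ} (e : Fin (n + 2) → ℝ) : pt (e 0) (e 1) (vt e) = e := by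
  funext i
  refine Fin.cases ?_ (fun i => ?_) i
  · rfl
  · refine Fin.cases ?_ (fun i => ?_) i
    · rfl
    · rfl

theorem cv_smul {n : ℕ} (a c : ℝ) (v : Fin n → ℝ) : cv (a * c) (a • v) = a • cv c v := by
  funext i
  refine Fin.cases ?_ (fun i => ?_) i
  · rfl
  · rfl

theorem pt_smul {n : ℕ} (a c y : ℝ) (v : Fin n → ℝ) :
    pt (a * c) (a * y) (a • v) = a • pt c y v := by
  funext i
  refine Fin.cases ?_ (fun i => ?_) i
  · rfl
  · refine Fin.cases ?_ (fun i => ?_) i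
    · rfl
    · rfl

end Pool.Agent.H52.HFQ.RCN

namespace Pool.Agent.H52.HFQ

open Pool.Agent.H52.HFQ.RCN

theorem pf_RCN : T_RCN := by
  intro n F N κ hκ
  set S : ℝ := ∑ i, ∑ k, |(N.Ti i k : ℝ)| with hS
  have hS0 : 0 ≤ S := Finset.sum_nonneg fun _ _ => Finset.sum_nonneg fun _ _ => abs_nonneg _
  refine ⟨S / κ + S ^ 2 + 1, by have := div_nonneg hS0 hκ.le; nlinarith [sq_nonneg S],
    fun x hx hFx hc => ?_⟩
  obtain ⟨e, he⟩ : ∃ e, e = mv N.Ti x := ⟨_, rfl⟩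
  have hex : mv N.T e = x := by
    rw [he]
    exact mv_mv N.Ti N.T N.h1 x
  have hc' : κ ≤ |e 0| := by rw [he]; exact hc
  have hbd : ∀ i, |e i| ≤ S := by
    intro i
    rw [he]
    exact mv_abs_le N.Ti x hx i
  have hc0 : e 0 ≠ 0 := by
    intro h
    rw [h, abs_zero] at hc'
    linarith
  have hcpos : 0 < |e 0| := abs_pos.2 hc0
  have hmu : (1 : ℝ) ≤ |(N.mu : ℝ)| := by
    have h1 : (1 : ℤ) ≤ |N.mu| := Int.one_le_abs N.mu0
    exact_mod_cast h1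
  -- the equation
  have h1 := N.hF ℝ (e 0) (e 1) (vt e)
  rw [pt_eta, hex, hFx] at h1
  obtain ⟨u, hu⟩ : ∃ u : Fin n → ℝ, u = (e 0)⁻¹ • vt e := ⟨_, rfl⟩
  have hcv : cv (e 0) (vt e) = (e 0) • cv 1 u := by
    rw [← cv_smul, mul_one, hu, smul_smul, mul_inv_cancel₀ hc0, one_smul]
  have h2 : qf (cf ℝ N.q) (cv (e 0) (vt e)) = (e 0) ^ 2 * qf (cf ℝ N.q) (cv 1 u) := by
    rw [hcv, qf_smul]
  have h3 : -qf (cf ℝ N.q) (cv 1 u) = (N.mu : ℝ) / e 0 * e 1 := by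
    rw [h2] at h1
    field_simp
    apply mul_right_cancel₀ hc0
    linear_combination h1
  have hxt : xt N 1 u = ((N.mu : ℝ) / e 0) • x := by
    unfold xt
    rw [← hex, ← mv_smul]
    congr 1
    have h4 : ((N.mu : ℝ) / e 0) • e = ((N.mu : ℝ) / e 0) • pt (e 0) (e 1) (vt e) := by
      rw [pt_eta]
    rw [h4, ← pt_smul, h3, div_mul_cancel₀ _ hc0]
    congr 1
    · ring
    · funext i
      rw [hu]
      simp only [Pi.smul_apply, smul_eq_mul]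
      ring
  refine ⟨u, fun j => ?_, ((N.mu : ℝ) / e 0) ^ 2, ?_, fun f => ?_⟩
  · rw [hu, Pi.smul_apply, smul_eq_mul, abs_mul, abs_inv, inv_mul_eq_div]
    have h5 : |vt e j| ≤ S := hbd _
    have h6 : |vt e j| / |e 0| ≤ S / κ := div_le_div₀ hS0 h5 hκ hc'
    nlinarith [sq_nonneg S]
  · have e1 : ((N.mu : ℝ) / e 0) ^ 2 = |(N.mu : ℝ)| ^ 2 / |e 0| ^ 2 := by
      rw [div_pow, sq_abs, sq_abs]
    rw [e1]
    have h5 : 1 ≤ |(N.mu : ℝ)| ^ 2 := one_le_pow₀ hmu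
    have h6 : |e 0| ^ 2 ≤ S ^ 2 := pow_le_pow_left₀ hcpos.le (hbd 0) 2
    have h7 : 0 < |e 0| ^ 2 := by positivity
    have h8 : 1 / |e 0| ^ 2 ≤ |(N.mu : ℝ)| ^ 2 / |e 0| ^ 2 :=
      div_le_div_of_nonneg_right h5 h7.le
    have h9 : |e 0| ^ 2 ≤ S / κ + S ^ 2 + 1 := by
      have := div_nonneg hS0 hκ.le
      linarith
    have h10 : 0 ≤ S / κ + S ^ 2 + 1 := by positivity
    calc (1 : ℝ) ≤ (S / κ + S ^ 2 + 1) * (1 / |e 0| ^ 2) := by
          rw [mul_one_div, le_div_iff₀ h7, one_mul]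
          exact h9
      _ ≤ _ := mul_le_mul_of_nonneg_left h8 h10
  · unfold gG
    rw [hxt, qf_smul]

end Pool.Agent.H52.HFQ
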