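import Pool.Agent.H34.FQ.Targets

/-!
# MP_63b6b1_nt, board hfq, row SP1: a polynomial condition for smoothness
-/

set_option autoImplicit false

open Finset Pool.Agent.H32.RQ Pool.Agent.H34.FQ Polynomial Pool.Agent.H13.RQ

namespace Pool.Agent.H52.HFQ.SP1

variable {s : ℕ}

/-- the form with a given symmetric Hessian matrix -/
noncomputable def fm (S : Matrix (Fin s) (Fin s) ℝ) : Mon s → ℝ := fun p =>
  if p.1.1 = p.1.2 then S p.1.1 p.1.1 / 2 else S p.1.1 p.1.2

theorem Hs_fm (S : Matrix (Fin s) (Fin s) ℝ) (hS : ∀ i j, S i j = S j i) : Hs (fm S) = S := by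
  ext j l
  unfold Hs
  rcases lt_trichotomy j l with h | h | h
  · rw [Finset.sum_eq_single (⟨(j, l), h.le⟩ : Mon s)]
    · simp [fm, h.ne, h.ne']
    · intro p _ hp
      have h1 : ¬ (p.1.1 = j ∧ p.1.2 = l) := fun h3 => hp (Subtype.ext (Prod.ext h3.1 h3.2))
      have h2 : ¬ (p.1.2 = j ∧ p.1.1 = l) := by
        rintro ⟨h3, h4⟩
        have := p.2
        rw [h3, h4] at this
        exact absurd h (not_lt.2 this)
      rw [if_neg h1, if_neg h2, add_zero, mul_zero]
    · intro h1
      exact absurd (Finset.mem_univ _) h1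
  · subst h
    rw [Finset.sum_eq_single (⟨(j, j), le_refl j⟩ : Mon s)]
    · simp [fm]
      ring
    · intro p _ hp
      have h1 : ¬ (p.1.1 = j ∧ p.1.2 = j) := fun h3 => hp (Subtype.ext (Prod.ext h3.1 h3.2))
      have h2 : ¬ (p.1.2 = j ∧ p.1.1 = j) := fun h3 => h1 ⟨h3.2, h3.1⟩
      rw [if_neg h1, if_neg h2, add_zero, mul_zero]
    · intro h1
      exact absurd (Finset.mem_univ _) h1
  · rw [Finset.sum_eq_single (⟨(l, j), h.le⟩ : Mon s)]
    · simp [fm, h.ne, h.ne']
      exact hS l j
    · intro p _ hp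
      have h1 : ¬ (p.1.1 = j ∧ p.1.2 = l) := by
        rintro ⟨h3, h4⟩
        have := p.2
        rw [h3, h4] at this
        exact absurd h (not_lt.2 this)
      have h2 : ¬ (p.1.2 = j ∧ p.1.1 = l) := fun h3 => hp (Subtype.ext (Prod.ext h3.2 h3.1))
      rw [if_neg h1, if_neg h2, add_zero, mul_zero]
    · intro h1
      exact absurd (Finset.mem_univ _) h1

/-- the determinant of a simultaneously diagonalised pencil -/
theorem det_pen (F : Fin 2 → Mon s → ℝ) (U V : Matrix (Fin s) (Fin s) ℝ) (hUV : U * V = 1)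
    (a b : Fin s → ℝ) (h0 : Hs (F 0) = U * Matrix.diagonal a * V)
    (h1 : Hs (F 1) = U * Matrix.diagonal b * V) :
    (pen F).det = ∏ i, (X * C (b i) + C (a i)) := by
  have h2 : pen F = U.map C * Matrix.diagonal (fun i => X * C (b i) + C (a i)) * V.map C := by
    have h3 : Matrix.diagonal (fun i => X * C (b i) + C (a i)) =
        (X : ℝ[X]) • (Matrix.diagonal b).map C + (Matrix.diagonal a).map C := by
      ext1 i j
      by_cases h : i = j
      · subst h
        simp
      · simp [h]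
    rw [h3, Matrix.mul_add, Matrix.add_mul, Matrix.mul_smul, Matrix.smul_mul, ← Matrix.map_mul,
      ← Matrix.map_mul, ← Matrix.map_mul, ← Matrix.map_mul, ← h0, ← h1]
    rfl
  rw [h2, Matrix.det_mul, Matrix.det_mul, Matrix.det_diagonal, mul_right_comm, ← Matrix.det_mul,
    ← Matrix.map_mul, hUV, Matrix.map_one _ (map_zero _) (map_one _), Matrix.det_one, one_mul]

/-- a form with distinct eigenvalues with respect to a nondegenerate form -/
theorem exists_form (f : Mon s → ℝ) (hf : (Hs f).det ≠ 0) : ∃ g : Mon s → ℝ, dsc ![f, g] ≠ 0 := by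
  have hA : (Hs f).IsHermitian := by
    ext i j
    rw [Matrix.conjTranspose_apply, star_trivial]
    exact Hs_symm f j i
  obtain ⟨U, V, hUV, hVU, hVt, a, ha⟩ : ∃ U V : Matrix (Fin s) (Fin s) ℝ, U * V = 1 ∧ V * U = 1 ∧
      V = U.transpose ∧ ∃ a : Fin s → ℝ, Hs f = U * Matrix.diagonal a * V := by
    refine ⟨hA.eigenvectorUnitary, star (hA.eigenvectorUnitary : Matrix (Fin s) (Fin s) ℝ),
      ?_, ?_, ?_, hA.eigenvalues, ?_⟩
    · exact Unitary.coe_mul_star_self _
    · exact Unitary.coe_star_mul_self _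
    · rw [Matrix.star_eq_conjTranspose, Matrix.conjTranspose_eq_transpose_of_trivial]
    · have h := hA.spectral_theorem
      rw [Unitary.conjStarAlgAut_apply] at h
      exact h
  have hprod : (Hs f).det = ∏ i, a i := by
    rw [ha, Matrix.det_mul, Matrix.det_mul, Matrix.det_diagonal, mul_right_comm, ← Matrix.det_mul,
      hUV, Matrix.det_one, one_mul]
  have ha0 : ∀ i, a i ≠ 0 := by
    intro i h
    apply hf
    rw [hprod]
    exact Finset.prod_eq_zero (Finset.mem_univ i) h
  obtain ⟨b, hb⟩ : ∃ b : Fin s → ℝ, b = fun i => -a i / ((i.val : ℝ) + 1) := ⟨_, rfl⟩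
  have hb0 : ∀ i, b i ≠ 0 := by
    intro i
    rw [hb]
    exact div_ne_zero (neg_ne_zero.2 (ha0 i)) (by positivity)
  have hab : ∀ i, a i = -(b i * ((i.val : ℝ) + 1)) := by
    intro i
    have h : ((i.val : ℝ) + 1) ≠ 0 := by positivity
    rw [hb]
    beta_reduce
    rw [div_mul_cancel₀ _ h, neg_neg]
  have hSym : ∀ i j, (U * Matrix.diagonal b * V) i j = (U * Matrix.diagonal b * V) j i := by
    have h : (U * Matrix.diagonal b * V).transpose = U * Matrix.diagonal b * V := by
      rw [Matrix.transpose_mul, Matrix.transpose_mul, Matrix.diagonal_transpose, hVt,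
        Matrix.transpose_transpose, Matrix.mul_assoc]
    intro i j
    exact congrFun (congrFun h j) i
  refine ⟨fm (U * Matrix.diagonal b * V), ?_⟩
  have h1 : Hs (![f, fm (U * Matrix.diagonal b * V)] 1) = U * Matrix.diagonal b * V :=
    Hs_fm _ hSym
  have h0 : Hs (![f, fm (U * Matrix.diagonal b * V)] 0) = U * Matrix.diagonal a * V := ha
  have hpen := det_pen _ U V hUV a b h0 h1
  have hpen2 : (pen ![f, fm (U * Matrix.diagonal b * V)]).det =
      C (∏ i, b i) * ∏ i : Fin s, (X - C ((i.val : ℝ) + 1)) := by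
    rw [hpen, map_prod, ← Finset.prod_mul_distrib]
    refine Finset.prod_congr rfl fun i _ => ?_
    rw [hab i, map_neg, map_mul]
    ring
  have hc : ∏ i, b i ≠ 0 := Finset.prod_ne_zero_iff.2 fun i _ => hb0 i
  have hsep0 : (∏ i : Fin s, (X - C ((i.val : ℝ) + 1))).Separable := by
    rw [separable_prod_X_sub_C_iff]
    intro i j hij
    have h : (i.val : ℝ) + 1 = (j.val : ℝ) + 1 := hij
    exact Fin.ext (by exact_mod_cast add_right_cancel h)
  have hsep : (pen ![f, fm (U * Matrix.diagonal b * V)]).det.Separable := by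
    rw [hpen2]
    exact Separable.unit_mul (isUnit_C.2 (isUnit_iff_ne_zero.2 hc)) hsep0
  have hdeg : (pen ![f, fm (U * Matrix.diagonal b * V)]).det.natDegree = s := by
    rw [hpen2, natDegree_C_mul hc, natDegree_prod_of_monic _ _ fun j _ => monic_X_sub_C _,
      Finset.sum_congr rfl fun (j : Fin s) _ => natDegree_X_sub_C ((j.val : ℝ) + 1),
      Finset.sum_const, Finset.card_univ, Fintype.card_fin, smul_eq_mul, mul_one]
  have hdeg' : (derivative (pen ![f, fm (U * Matrix.diagonal b * V)]).det).natDegree = s - 1 := by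
    rw [natDegree_derivative, hdeg]
  have hr := resultant_ne_zero _ _ hsep
  rw [hdeg, hdeg'] at hr
  unfold dsc
  refine mul_ne_zero hr ?_
  rw [h1, Matrix.det_mul, Matrix.det_mul, Matrix.det_diagonal, mul_right_comm, ← Matrix.det_mul,
    hUV, Matrix.det_one, one_mul]
  exact hc

end Pool.Agent.H52.HFQ.SP1

namespace Pool.Agent.H52.HFQ

open Pool.Agent.H52.HFQ.SP1

theorem pf_SP1 : T_SP1 := by
  intro s F hs hF
  obtain ⟨P, hP⟩ : ∃ P : MvPolynomial (Mon s) ℤ,
    P = dsc ![fun p => MvPolynomial.C (F p), fun p => MvPolynomial.X p] := ⟨_, rfl⟩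
  refine ⟨P, ?_, ?_⟩
  · intro h0
    have hF' : (Hs (fun p => ((F p : ℤ) : ℝ))).det ≠ 0 := by
      have h1 : Hs (fun p => ((F p : ℤ) : ℝ)) = (gr F).map (Int.castRingHom ℝ) := by
        ext j l
        exact (Hs_map (Int.castRingHom ℝ) F j l).symm
      rw [h1]
      have h2 : ((gr F).map (Int.castRingHom ℝ)).det = ((gr F).det : ℝ) :=
        (RingHom.map_det (Int.castRingHom ℝ) (gr F)).symm
      rw [h2]
      exact Int.cast_ne_zero.2 hF
    obtain ⟨g, hg⟩ := exists_form _ hF'
    apply hg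
    have h1 := dsc_map (MvPolynomial.eval₂Hom (Int.castRingHom ℝ) g)
      (![fun p => MvPolynomial.C (F p), fun p => MvPolynomial.X p] :
        Fin 2 → Mon s → MvPolynomial (Mon s) ℤ)
    rw [← hP, h0, map_zero] at h1
    have h2 : (fun (i : Fin 2) (p : Mon s) => (MvPolynomial.eval₂Hom (Int.castRingHom ℝ) g)
        ((![fun p => MvPolynomial.C (F p), fun p => MvPolynomial.X p] :
        Fin 2 → Mon s → MvPolynomial (Mon s) ℤ) i p)) = ![fun p => ((F p : ℤ) : ℝ), g] := by
      funext i p
      fin_cases i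
      · simp
      · simp
    rw [h2] at h1
    exact h1.symm
  · intro f hf x hx hq
    refine smooth_of_dsc hs (cm (AlgebraicClosure ℚ) ![F, f]) ?_ x hx (hq 1)
    have h1 := dsc_map ((Int.castRingHom (AlgebraicClosure ℚ)).comp (MvPolynomial.eval f))
      (![fun p => MvPolynomial.C (F p), fun p => MvPolynomial.X p] :
        Fin 2 → Mon s → MvPolynomial (Mon s) ℤ)
    have h2 : (fun (i : Fin 2) (p : Mon s) => ((Int.castRingHom (AlgebraicClosure ℚ)).comp
      (MvPolynomial.eval f)) ((![fun p => MvPolynomial.C (F p), fun p => MvPolynomial.X p] :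
        Fin 2 → Mon s → MvPolynomial (Mon s) ℤ) i p)) = cm (AlgebraicClosure ℚ) ![F, f] := by
      funext i p
      fin_cases i
      · simp [cm]
      · simp [cm]
    rw [h2, ← hP] at h1
    rw [← h1, RingHom.comp_apply]
    exact Int.cast_ne_zero.2 hf

end Pool.Agent.H52.HFQ
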