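import Pool.Agent.H34.FQ.Targets

/-!
# MP_63b6b1_nt, board hfq, row SXB: the size of the zeros
-/

set_option autoImplicit false

open Finset Pool.Agent.H32.RQ Pool.Agent.H34.FQ

namespace Pool.Agent.H52.HFQ.SXB

variable {s : ℕ}

theorem mv_mv (T Ti : Matrix (Fin s) (Fin s) ℤ) (h : Ti * T = 1) (x : Fin s → ℤ) :
    mv Ti (mv T x) = x := by
  have h1 : ∀ (A : Matrix (Fin s) (Fin s) ℤ) (y : Fin s → ℤ), mv A y = A.mulVec y := by
    intro A y
    funext i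
    simp [mv, Matrix.mulVec, dotProduct]
  rw [h1, h1, Matrix.mulVec_mulVec, h, Matrix.one_mulVec]

theorem mv_abs_le (T : Matrix (Fin s) (Fin s) ℤ) (x : Fin s → ℤ) (B : ℤ) (hB : ∀ j, |x j| ≤ B)
    (i : Fin s) : |mv T x i| ≤ (∑ i, ∑ k, |T i k|) * B := by
  have hB0 : 0 ≤ B := (abs_nonneg (x i)).trans (hB i)
  have hT : ∑ k, |T i k| ≤ ∑ i, ∑ k, |T i k| :=
    Finset.single_le_sum (f := fun i => ∑ k, |T i k|)
      (fun _ _ => Finset.sum_nonneg fun _ _ => abs_nonneg _) (Finset.mem_univ i)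
  calc |mv T x i| ≤ ∑ j, |(T i j : ℤ) * x j| := by
        unfold mv
        simp only [Int.cast_id]
        exact Finset.abs_sum_le_sum_abs _ _
    _ ≤ ∑ j, |T i j| * B := by
        refine Finset.sum_le_sum fun j _ => ?_
        rw [abs_mul]
        exact mul_le_mul_of_nonneg_left (hB j) (abs_nonneg _)
    _ = (∑ k, |T i k|) * B := by rw [Finset.sum_mul]
    _ ≤ (∑ i, ∑ k, |T i k|) * B := mul_le_mul_of_nonneg_right hT hB0

end Pool.Agent.H52.HFQ.SXB

namespace Pool.Agent.H52.HFQ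

open Pool.Agent.H52.HFQ.SXB

theorem pf_SXB : T_SXB := by
  classical
  intro n F N m0 K
  obtain ⟨a, ha⟩ : ∃ a : ℕ, (a : ℤ) = ∑ i, ∑ k, |N.T i k| :=
    ⟨(∑ i, ∑ k, |N.T i k|).toNat, Int.toNat_of_nonneg
      (Finset.sum_nonneg fun _ _ => Finset.sum_nonneg fun _ _ => abs_nonneg _)⟩
  obtain ⟨b, hb⟩ : ∃ b : ℕ, (b : ℤ) = ∑ i, ∑ k, |N.Ti i k| :=
    ⟨(∑ i, ∑ k, |N.Ti i k|).toNat, Int.toNat_of_nonneg
      (Finset.sum_nonneg fun _ _ => Finset.sum_nonneg fun _ _ => abs_nonneg _)⟩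
  refine ⟨a * K + 1, (a * K + 1) * b, by omega, fun D X x hx => ?_⟩
  unfold SX at hx
  obtain ⟨hx1, hx2, hx3⟩ := Finset.mem_filter.1 hx
  obtain ⟨e, he, rfl⟩ := Finset.mem_image.1 hx1
  unfold EX vb at he
  obtain ⟨he1, ⟨m, l, hm, -, hl, hXl, -, he0⟩, -, -⟩ := Finset.mem_filter.1 he
  have he1' : ∀ i, |e i| ≤ ((K * X : ℕ) : ℤ) := by
    intro i
    have h1 := Finset.mem_Icc.1 (Fintype.mem_piFinset.1 he1 i)
    exact abs_le.2 h1
  refine ⟨fun i => ?_, ?_, hx2, hx3⟩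
  · have h1 := mv_abs_le N.T e _ he1' i
    rw [← ha] at h1
    refine h1.trans ?_
    push_cast
    nlinarith [Int.natCast_nonneg X, Int.natCast_nonneg a, Int.natCast_nonneg K]
  · by_contra hcon
    push Not at hcon
    -- all coordinates are small
    have hX0 : (X : ℤ) < e 0 := by
      rw [he0]
      have h1 : (X : ℤ) < l := by exact_mod_cast hXl
      have h2 : (1 : ℤ) ≤ m := by exact_mod_cast hm
      nlinarith
    have hsm : ∀ i, (b : ℤ) * |mv N.T e i| ≤ X := by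
      intro i
      have h1 := hcon i
      have h2 : ((a * K + 1 : ℕ) : ℤ) * ((b : ℤ) * |mv N.T e i|) < ((a * K + 1 : ℕ) : ℤ) * X := by
        push_cast at h1 ⊢
        linarith
      have h3 : (0 : ℤ) < ((a * K + 1 : ℕ) : ℤ) := by positivity
      exact (lt_of_mul_lt_mul_left h2 h3.le).le
    obtain ⟨i0, -, hi0⟩ := Finset.exists_max_image (Finset.univ : Finset (Fin (n + 2)))
      (fun i => |mv N.T e i|) ⟨0, Finset.mem_univ _⟩
    have h4 := mv_abs_le N.Ti (mv N.T e) (|mv N.T e i0|) (fun j => hi0 j (Finset.mem_univ _)) 0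
    rw [mv_mv N.T N.Ti N.h2, ← hb] at h4
    have h5 := le_abs_self (e 0)
    have h6 := hsm i0
    linarith

end Pool.Agent.H52.HFQ
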